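import Mathlib
import Pool.Agent.Y247.CN.Explicit

set_option autoImplicit false
open MeasureTheory Metric

namespace Pool.Agent.Results.MP_5cce8f_an.ConnectedNearOne

/-- The `k`-th eigenvalue of the Dirichlet Laplacian on the open set `Ω ⊆ ℝ^N`, counted with
multiplicity, given by the min-max formula over `k`-dimensional spaces of smooth functions with
compact support in `Ω`: the infimum of the real numbers `c` for which there is a `k`-dimensional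
space `V` of such functions with `∫ |∇v|² ≤ c ∫ v²` for all `v ∈ V`. -/
noncomputable def dirichletEigenvalue (N k : ℕ) (Ω : Set (EuclideanSpace ℝ (Fin N))) : ℝ :=
  sInf {c : ℝ | ∃ V : Submodule ℝ (EuclideanSpace ℝ (Fin N) → ℝ),
    Module.finrank ℝ V = k ∧
    ∀ v ∈ V, ContDiff ℝ (⊤ : ℕ∞) v ∧ HasCompactSupport v ∧ tsupport v ⊆ Ω ∧
      ∫ x, ‖fderiv ℝ v x‖ ^ 2 ≤ c * ∫ x, v x ^ 2}

/-- The functional `F_t(Ω) = t λ₁(Ω) + (1 - t) λ₂(Ω)`. -/
noncomputable def functional (N : ℕ) (t : ℝ) (Ω : Set (EuclideanSpace ℝ (Fin N))) : ℝ :=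
  t * dirichletEigenvalue N 1 Ω + (1 - t) * dirichletEigenvalue N 2 Ω

/-- `Ω` is a minimizer of `F_t` among the open sets of volume `c`. -/
def IsMinimizer (N : ℕ) (c t : ℝ) (Ω : Set (EuclideanSpace ℝ (Fin N))) : Prop :=
  IsOpen Ω ∧ volume Ω = ENNReal.ofReal c ∧
    ∀ Ω' : Set (EuclideanSpace ℝ (Fin N)), IsOpen Ω' → volume Ω' = ENNReal.ofReal c →
      functional N t Ω ≤ functional N t Ω'

/-- `t_conn`: the infimum of the `s ∈ [0,1]` such that for every `t ∈ [s,1]` every minimizer of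
`F_t` among the open sets of volume `c` is connected. -/
noncomputable def tConn (N : ℕ) (c : ℝ) : ℝ :=
  sInf {s : ℝ | 0 ≤ s ∧ s ≤ 1 ∧ ∀ t : ℝ, s ≤ t → t ≤ 1 →
    ∀ Ω : Set (EuclideanSpace ℝ (Fin N)), IsMinimizer N c t Ω → IsConnected Ω}

theorem tConn_le {N : ℕ} {c τ : ℝ} (h0 : 0 ≤ τ) (h1 : τ < 1)
    (h : ∀ t : ℝ, τ < t → t ≤ 1 → ∀ Ω : Set (EuclideanSpace ℝ (Fin N)),
      IsMinimizer N c t Ω → IsConnected Ω) : tConn N c ≤ τ := by
  have hbdd : BddBelow {s : ℝ | 0 ≤ s ∧ s ≤ 1 ∧ ∀ t : ℝ, s ≤ t → t ≤ 1 →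
      ∀ Ω : Set (EuclideanSpace ℝ (Fin N)), IsMinimizer N c t Ω → IsConnected Ω} :=
    ⟨0, fun s hs => hs.1⟩
  apply le_of_forall_gt_imp_ge_of_dense
  intro s hs
  rcases le_or_gt s 1 with hs1 | hs1
  · exact csInf_le hbdd ⟨by linarith, hs1, fun t ht ht1 Ω hΩ => h t (by linarith) ht1 Ω hΩ⟩
  · exact (csInf_le hbdd ⟨by linarith, le_rfl, fun t ht ht1 Ω hΩ =>
      h t (by linarith) ht1 Ω hΩ⟩ : tConn N c ≤ 1).trans hs1.le

/-- For every volume `c > 0`: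

* in every dimension `N ≥ 2` every minimizer of `t λ₁ + (1 - t) λ₂` with
  `e / (1 + e) < t ≤ 1` is connected; so `t_conn ≤ e / (1 + e) < 0.7311`;
* in the plane every minimizer with `1 / 2 < t ≤ 1` is connected; so `t_conn ≤ 1 / 2`. -/
theorem result (c : ℝ) (hc : 0 < c) :
    (∀ N : ℕ, 2 ≤ N →
      (∀ t : ℝ, Real.exp 1 / (1 + Real.exp 1) < t → t ≤ 1 →
        ∀ Ω : Set (EuclideanSpace ℝ (Fin N)), IsMinimizer N c t Ω → IsConnected Ω) ∧
      tConn N c ≤ Real.exp 1 / (1 + Real.exp 1) ∧ tConn N c < 0.7311) ∧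
    (∀ t : ℝ, 1 / 2 < t → t ≤ 1 →
      ∀ Ω : Set (EuclideanSpace ℝ (Fin 2)), IsMinimizer 2 c t Ω → IsConnected Ω) ∧
    tConn 2 c ≤ 1 / 2 := by
  have he : 0 < Real.exp 1 := Real.exp_pos 1
  have hlt : Real.exp 1 / (1 + Real.exp 1) < 0.7311 := by
    rw [div_lt_iff₀ (by positivity)]
    have := Real.exp_one_lt_d9
    norm_num at this ⊢
    linarith
  refine ⟨fun N hN => ?_, ?_, ?_⟩
  · have h : ∀ t : ℝ, Real.exp 1 / (1 + Real.exp 1) < t → t ≤ 1 →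
        ∀ Ω : Set (EuclideanSpace ℝ (Fin N)), IsMinimizer N c t Ω → IsConnected Ω :=
      fun t ht ht1 Ω hΩ => Pool.Agent.Y247.CN.conn_explicit hN hc ht ht1 hΩ
    have h2 : tConn N c ≤ Real.exp 1 / (1 + Real.exp 1) :=
      tConn_le (by positivity) (by linarith) h
    exact ⟨h, h2, h2.trans_lt hlt⟩
  · exact fun t ht ht1 Ω hΩ => Pool.Agent.Y247.CN.conn_plane hc ht ht1 hΩ
  · exact tConn_le (by norm_num) (by norm_num)
      (fun t ht ht1 Ω hΩ => Pool.Agent.Y247.CN.conn_plane hc ht ht1 hΩ)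

end Pool.Agent.Results.MP_5cce8f_an.ConnectedNearOne
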